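import Pool.Agent.Y520.EP.Zero
import Pool.Agent.Y520.EP.Dim
import Pool.Agent.Y520.EP.Unif

/-!
MP_3eb465_an, Q1 (negative answer), in a stronger form: in every dimension `N + 1 ≥ 10` there is an explicit
epigraph, uniformly `C^{2,γ}` smooth for every `γ ≤ 1`, and there is one explicit positive reaction, for which
the positive bounded solutions of `-Δu = f(u)`, `u = 0` on the boundary contain a whole cube: for every sequence
`c : ℤ → [0, 1/2]` there is a solution with the asymptotic profile `c k cos (π z / 2)` in the `k`-th slot of the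
domain.
-/

set_option autoImplicit false

open Metric Set
open scoped InnerProductSpace

namespace Pool.Agent.Results.MP_3eb465_an.PrescribedAmplitudes

/-- The epigraph of `φ : ℝⁿ → ℝ` in `ℝ^(n+1)`; the last coordinate is the vertical one. -/
def epigraph {n : ℕ} (φ : (Fin n → ℝ) → ℝ) : Set (EuclideanSpace ℝ (Fin (n + 1))) :=
  {X | φ (fun i => X (Fin.castSucc i)) < X (Fin.last n)}

/-- `f` is a positive reaction whose derivative is bounded and `γ`-Hölder continuous (on `ℝ`, hence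
on `[0,∞)`). -/
structure IsPositiveReaction (γ : NNReal) (f : ℝ → ℝ) : Prop where
  contDiff : ContDiff ℝ 1 f
  deriv_bounded : ∃ C : ℝ, ∀ t, |deriv f t| ≤ C
  deriv_holder : ∃ C : NNReal, HolderWith C γ (deriv f)
  zero : f 0 = 0
  one : f 1 = 0
  pos : ∀ t, 0 < t → t < 1 → 0 < f t
  deriv_zero : 0 < deriv f 0
  neg : ∀ t, 1 < t → f t < 0
  deriv_one : deriv f 1 < 0

/-- `Ω` is uniformly `C^{2,γ}` smooth: there are `r > 0` and `M` such that, for every boundary
point `p`, the part of `Ω` in the ball `B_r(p)` is the part of that ball lying above (in some unit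
direction `ν`) the graph of a function `g` of the component orthogonal to `ν`, where `g` and its
first two derivatives are bounded by `M` and the second derivative is `γ`-Hölder with constant `M`. -/
def UniformlySmooth {d : ℕ} (γ : NNReal) (Ω : Set (EuclideanSpace ℝ (Fin d))) : Prop :=
  ∃ r : ℝ, 0 < r ∧ ∃ M : NNReal, ∀ p ∈ frontier Ω,
    ∃ ν : EuclideanSpace ℝ (Fin d), ‖ν‖ = 1 ∧ ∃ g : EuclideanSpace ℝ (Fin d) → ℝ,
      ContDiff ℝ 2 g ∧
      (∀ x, |g x| ≤ M ∧ ‖fderiv ℝ g x‖ ≤ M ∧ ‖iteratedFDeriv ℝ 2 g x‖ ≤ M) ∧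
      HolderWith M γ (iteratedFDeriv ℝ 2 g) ∧
      ∀ q ∈ ball p r,
        (q ∈ Ω ↔ g (q - p - (inner ℝ (q - p) ν) • ν) < inner ℝ (q - p) ν)

/-- `u` is a positive bounded solution of `-Δu = f(u)` in `Ω`, `u = 0` on `∂Ω`. -/
structure IsPositiveBoundedSolution {d : ℕ} (f : ℝ → ℝ) (Ω : Set (EuclideanSpace ℝ (Fin d)))
    (u : EuclideanSpace ℝ (Fin d) → ℝ) : Prop where
  contDiffOn : ContDiffOn ℝ 2 u Ω
  continuousOn : ContinuousOn u (closure Ω)
  bounded : ∃ C : ℝ, ∀ x ∈ Ω, |u x| ≤ C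
  pos : ∀ x ∈ Ω, 0 < u x
  boundary : ∀ x ∈ frontier Ω, u x = 0
  equation : ∀ x ∈ Ω, -(Laplacian.laplacian u x) = f (u x)

/-- `10^6` plus the squares of the coordinates `1, …, 8` of `w` -/
noncomputable def q {N : ℕ} (h : 9 ≤ N) (w : Fin N → ℝ) : ℝ :=
  1000000 + ∑ i : Fin 8, (w (Fin.castLE h i.succ)) ^ 2

/-- `φ w = - cos (π w₀ / 2) exp √(q w) - q w` -/
noncomputable def phi {N : ℕ} (h : 9 ≤ N) (w : Fin N → ℝ) : ℝ :=
  -Real.cos (Real.pi / 2 * w (Fin.castLE h 0)) * Real.exp (Real.sqrt (q h w)) - q h w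

/-- the reaction `(π² / 4) (t - 4 (t - 1/2)₊² + 4 (t - 1)₊²)` -/
noncomputable def react (t : ℝ) : ℝ :=
  Real.pi ^ 2 / 4 * (t - 4 * (max 0 (t - 1 / 2)) ^ 2 + 4 * (max 0 (t - 1)) ^ 2)

/-- the amplitudes: sequences `ℤ → [0, 1/2]` -/
def Amplitudes (c : ℤ → ℝ) : Prop := ∀ k, 0 ≤ c k ∧ c k ≤ 1 / 2

open Pool.Agent.H314.Dir Pool.Agent.H52R3.Epi Pool.Agent.Y520.EP in
/-- **Prescribed amplitudes.** Let `N ≥ 9`, `w` the coordinates `0, …, N - 1` and `y` the last coordinate of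
`X ∈ ℝ^(N+1)`. The function `react` is a positive reaction of class `C^{1,γ}` and the epigraph `Ω` of `phi` is
uniformly `C^{2,γ}` smooth, for every `γ ≤ 1`. For every `c : ℤ → [0, 1/2]` there is a positive bounded solution
`U c ≤ 1` with
`|U c X - c k cos (π w₀ / 2)| ≤ 2 (1/q + y²/q²)`, `q = q(w)`, whenever `|w₀ - 4k| ≤ 1` and `|y| < q` (these `X`
lie in `Ω`). Different sequences give different solutions. -/
theorem result (N : ℕ) (hN : 9 ≤ N) : ContDiff ℝ 2 (phi hN) ∧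
    (∀ γ : NNReal, 0 < γ → γ ≤ 1 → IsPositiveReaction γ react ∧ UniformlySmooth γ (epigraph (phi hN))) ∧
    ∃ U : (ℤ → ℝ) → EuclideanSpace ℝ (Fin (N + 1)) → ℝ,
      (∀ c : ℤ → ℝ, Amplitudes c → IsPositiveBoundedSolution react (epigraph (phi hN)) (U c) ∧
        (∀ X ∈ epigraph (phi hN), U c X ≤ 1) ∧
        ∀ (k : ℤ) (X : EuclideanSpace ℝ (Fin (N + 1))) (w : Fin N → ℝ), (w = fun i => X (Fin.castSucc i)) →
          |w (Fin.castLE hN 0) - 4 * k| ≤ 1 → |X (Fin.last N)| < q hN w →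
          X ∈ epigraph (phi hN) ∧ |U c X - c k * Real.cos (Real.pi / 2 * w (Fin.castLE hN 0))| ≤
            2 * ((q hN w)⁻¹ + X (Fin.last N) ^ 2 * ((q hN w) ^ 2)⁻¹)) ∧
      ∀ c c' : ℤ → ℝ, Amplitudes c → Amplitudes c' → c ≠ c' → ∃ X ∈ epigraph (phi hN), U c X ≠ U c' X := by
  classical
  -- the domain
  have hOm : epigraph (phi hN) = P (emb hN) ⁻¹' Om := by
    have h1 := epi_P hN (fun w : Fin 9 → ℝ => -Real.cos (Real.pi / 2 * w 0) *
      Real.exp (Real.sqrt (1000000 + ∑ i : Fin 8, (w i.succ) ^ 2)) -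
      (1000000 + ∑ i : Fin 8, (w i.succ) ^ 2))
    have h2 : TwoSolutionsOnEpigraph.epigraph (fun w : Fin 9 → ℝ => -Real.cos (Real.pi / 2 * w 0) *
      Real.exp (Real.sqrt (1000000 + ∑ i : Fin 8, (w i.succ) ^ 2)) -
      (1000000 + ∑ i : Fin 8, (w i.succ) ^ 2)) = Om := by
      ext X
      exact (DF.FF_neg_iff X).symm
    rw [h2] at h1
    exact h1
  have he := emb_inj hN
  have hr : react = fr := rfl
  have hphi : ContDiff ℝ 2 (phi hN) := by
    have hS : ContDiff ℝ 2 (fun w : Fin N → ℝ => q hN w) := by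
      unfold q
      fun_prop
    have hpos : ∀ w : Fin N → ℝ, q hN w ≠ 0 := by
      intro w
      unfold q
      have : 0 ≤ ∑ i : Fin 8, (w (Fin.castLE hN i.succ)) ^ 2 := Finset.sum_nonneg fun i _ => sq_nonneg _
      linarith
    have hc : ContDiff ℝ 2 (fun w : Fin N → ℝ => Real.cos (Real.pi / 2 * w (Fin.castLE hN 0))) := by
      fun_prop
    exact ((hc.neg).mul ((hS.sqrt hpos).exp)).sub hS
  refine ⟨hphi, ?_, ?_⟩
  · intro γ h0 h1
    refine ⟨?_, ?_⟩
    · rw [hr]
      exact ⟨contDiff_fr, ⟨_, deriv_fr_bdd⟩, holder_fr γ h1, fr_zero, fr_one,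
        fun t => fr_pos, deriv_fr_zero, fun t => fr_neg, deriv_fr_one⟩
    · rw [hOm]
      refine smooth_P he ?_
      obtain ⟨c, hc, hg⟩ := DF.grad_FF
      obtain ⟨C, hC⟩ := DF.bound_FF
      obtain ⟨r, hr, M, hM⟩ := unif_graph1 FF DF.contDiff_FF c C hc hg hC γ h0 h1
      exact ⟨r, hr, M, fun p hp => hM p (DF.frontier_subset hp)⟩
  -- the solutions in dimension ten
  have H : ∀ c : ℤ → ℝ, ∃ u : EX → ℝ, Amplitudes c → ContDiffOn ℝ 2 u Om ∧ ContinuousOn u (closure Om) ∧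
      (∀ x ∈ frontier Om, u x = 0) ∧ (∀ x ∈ Om, 0 < u x) ∧
      (∀ x ∈ Om, VV c x ≤ u x ∧ u x ≤ SS c x) ∧ (∀ x ∈ Om, - lap u x = fr (u x)) := by
    intro c
    by_cases h : Amplitudes c
    · obtain ⟨u, hu⟩ := exists_sol' h
      exact ⟨u, fun _ => hu⟩
    · exact ⟨0, fun h' => absurd h' h⟩
  choose u hu using H
  refine ⟨fun c => u c ∘ P (emb hN), ?_, ?_⟩
  · intro c hc
    obtain ⟨u1, u2, u3, u4, u5, u6⟩ := hu c hc
    have hsol : TwoSolutionsOnEpigraph.IsPositiveBoundedSolution fr Om (u c) := by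
      refine ⟨u1, u2, ⟨1, fun x hx => ?_⟩, u4, u3, fun x hx => ?_⟩
      · rw [abs_of_pos (u4 x hx)]
        exact (u5 x hx).2.trans (Sa_le_one _ x)
      · rw [← lap_eq_laplacian]
        exact u6 x hx
    have h1 := sol_P he isOpen_Om hsol
    refine ⟨?_, ?_, ?_⟩
    · rw [hOm, hr]
      exact ⟨h1.contDiffOn, h1.continuousOn, h1.bounded, h1.pos, h1.boundary, h1.equation⟩
    · intro X hX
      rw [hOm] at hX
      exact (u5 _ hX).2.trans (Sa_le_one _ _)
    · intro k X w hw h0 hy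
      have e0 : (P (emb hN) X).ofLp 0 = w (Fin.castLE hN 0) := by
        rw [hw]
        rfl
      have ey : yf (P (emb hN) X) = X (Fin.last N) := by
        show X (emb hN (Fin.last 9)) = _
        rw [emb_last]
      have eq : qf (P (emb hN) X) = q hN w := by
        unfold qf q
        congr 1
        refine Finset.sum_congr rfl fun i _ => ?_
        rw [hw]
        show (X (emb hN (Fin.castSucc i.succ))) ^ 2 = _
        rw [emb_castSucc]
      have eC : Cf (P (emb hN) X) = Real.cos (Real.pi / 2 * w (Fin.castLE hN 0)) := by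
        unfold Cf
        rw [e0]
      have h2 := amp_bound hc u5 (X := P (emb hN) X) (k := k) (by rw [e0]; exact h0)
        (by rw [ey, eq]; exact hy)
      obtain ⟨h3, h4⟩ := h2
      refine ⟨?_, ?_⟩
      · rw [hOm]
        exact h3
      · rw [eC] at h4
        unfold bf at h4
        rw [ey, eq] at h4
        exact h4
  · intro c c' hc hc' hne
    obtain ⟨k, hk⟩ : ∃ k, c k ≠ c' k := by
      by_contra h
      push Not at h
      exact hne (funext h)
    obtain ⟨-, -, -, -, v5, -⟩ := hu c hc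
    obtain ⟨-, -, -, -, v5', -⟩ := hu c' hc'
    set δ : ℝ := |c k - c' k| with hδ
    have hδ0 : 0 < δ := abs_pos.2 (sub_ne_zero.2 hk)
    set s : ℝ := 4 / δ with hs
    obtain ⟨Y, hY0, hY1, hYy⟩ : ∃ Y : EX, Y.ofLp 0 = 4 * (k : ℝ) ∧ Y.ofLp 1 = s ∧ yf Y = 0 := by
      refine ⟨WithLp.toLp 2 (fun i => if i = 0 then 4 * (k : ℝ) else if i = 1 then s else 0), ?_, ?_, ?_⟩
      · simp
      · simp
      · unfold yf
        have h1 : (Fin.last 9 : Fin (9 + 1)) ≠ 0 := by decide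
        have h2 : (Fin.last 9 : Fin (9 + 1)) ≠ 1 := by decide
        simp only [PiLp.toLp_apply, if_neg h1, if_neg h2]
    have hC : Cf Y = 1 := by
      unfold Cf
      rw [hY0]
      have h1 : Real.pi / 2 * (4 * (k : ℝ)) = (k : ℝ) * (2 * Real.pi) := by ring
      rw [h1, Real.cos_int_mul_two_pi]
    have hq : 1000000 + s ^ 2 ≤ qf Y := by
      unfold qf
      have h1 : (Y.ofLp (Fin.castSucc (0 : Fin 8).succ)) ^ 2 ≤
          ∑ i : Fin 8, (Y.ofLp (Fin.castSucc i.succ)) ^ 2 :=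
        Finset.single_le_sum (f := fun i : Fin 8 => (Y.ofLp (Fin.castSucc i.succ)) ^ 2)
          (fun i _ => sq_nonneg _) (Finset.mem_univ 0)
      have h2 : Y.ofLp (Fin.castSucc (0 : Fin 8).succ) = s := hY1
      rw [h2] at h1
      linarith
    have hq0 : 0 < qf Y := by nlinarith [sq_nonneg s]
    have hb : 4 * bf Y < δ := by
      unfold bf
      rw [hYy]
      have h1 : (4:ℝ) * ((qf Y)⁻¹ + 0 ^ 2 * (qf Y ^ 2)⁻¹) = 4 / qf Y := by
        field_simp
        ring
      rw [h1, div_lt_iff₀ hq0]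
      have h2 : s * δ = 4 := by
        rw [hs]
        field_simp
      have h3 : s < qf Y := by nlinarith [sq_nonneg (s - 1)]
      nlinarith
    have hyq : |yf Y| < qf Y := by
      rw [hYy, abs_zero]
      exact hq0
    have hY0' : |Y.ofLp 0 - 4 * k| ≤ 1 := by
      rw [hY0]
      simp
    obtain ⟨hm, w1⟩ := amp_bound hc v5 hY0' hyq
    obtain ⟨-, w2⟩ := amp_bound hc' v5' hY0' hyq
    rw [hC, mul_one] at w1 w2
    refine ⟨J (emb hN) Y, ?_, ?_⟩
    · rw [hOm]
      show P (emb hN) (J (emb hN) Y) ∈ Om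
      rw [P_J he]
      exact hm
    · show u c (P (emb hN) (J (emb hN) Y)) ≠ u c' (P (emb hN) (J (emb hN) Y))
      rw [P_J he]
      intro heq
      rw [heq] at w1
      have w3 : δ ≤ 4 * bf Y := by
        have e1 : c k - c' k = (u c' Y - c' k) - (u c' Y - c k) := by ring
        rw [hδ, e1]
        refine (abs_sub _ _).trans ?_
        linarith
      linarith

end Pool.Agent.Results.MP_3eb465_an.PrescribedAmplitudes
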